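import Pool.Agent.helper53.SP4.Spec

/-!
# Project SP4 (MP_561ff4_al), row sp4:S4T: the isomorphism with `PSp(4, F)`
-/

set_option autoImplicit false

namespace Pool.Agent.SP4

open Pool.Agent.GS

/-- the coordinates -/
def S4T_e : Fin 4 ≃ Fin 2 ⊕ Fin 2 where
  toFun := ![Sum.inl 0, Sum.inl 1, Sum.inr 1, Sum.inr 0]
  invFun := Sum.elim ![0, 1] ![3, 2]
  left_inv := by intro i; fin_cases i <;> rfl
  right_inv := by
    intro i
    rcases i with i | i <;> fin_cases i <;> rfl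

/-- the change of coordinates -/
def S4T_L (F : Type) [Field F] : (Fin 4 → F) ≃ₗ[F] (Fin 2 ⊕ Fin 2 → F) := LinearEquiv.funCongrLeft F F S4T_e.symm

theorem S4T_B (F : Type) [Field F] [CharP F 2] (u w : Fin 4 → F) :
    BJ 2 F (S4T_L F u) (S4T_L F w) = B u w := by
  have h0 : ∀ (u : Fin 4 → F) (i : Fin 2 ⊕ Fin 2), S4T_L F u i = u (S4T_e.symm i) := fun _ _ => rfl
  have e1 : S4T_e.symm (Sum.inl 0) = 0 := rfl
  have e2 : S4T_e.symm (Sum.inl 1) = 1 := rfl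
  have e3 : S4T_e.symm (Sum.inr 1) = 2 := rfl
  have e4 : S4T_e.symm (Sum.inr 0) = 3 := rfl
  unfold BJ B
  rw [Matrix.toBilin'_apply]
  simp only [Fintype.sum_sum_type, Fin.sum_univ_two, Matrix.J, Matrix.fromBlocks_apply₁₁,
    Matrix.fromBlocks_apply₁₂, Matrix.fromBlocks_apply₂₁, Matrix.fromBlocks_apply₂₂, h0, e1, e2, e3, e4,
    Matrix.zero_apply, Matrix.neg_apply, Matrix.one_apply]
  simp [CharTwo.neg_eq]
  ring

theorem S4T_B' (F : Type) [Field F] [CharP F 2] (u : Fin 4 → F) (w : Fin 2 ⊕ Fin 2 → F) :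
    BJ 2 F (S4T_L F u) w = B u ((S4T_L F).symm w) := by
  rw [← S4T_B, LinearEquiv.apply_symm_apply]

/-- the matrix of `g` -/
noncomputable def S4T_M (F : Type) [Field F] (g : (Fin 4 → F) →ₗ[F] (Fin 4 → F)) :
    Matrix (Fin 2 ⊕ Fin 2) (Fin 2 ⊕ Fin 2) F :=
  LinearMap.toMatrix' ((S4T_L F : (Fin 4 → F) →ₗ[F] _) ∘ₗ g ∘ₗ ((S4T_L F).symm : _ →ₗ[F] (Fin 4 → F)))

theorem S4T_M_apply (F : Type) [Field F] (g : (Fin 4 → F) →ₗ[F] (Fin 4 → F)) (w : Fin 2 ⊕ Fin 2 → F) :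
    (S4T_M F g).mulVec w = S4T_L F (g ((S4T_L F).symm w)) := by
  unfold S4T_M
  rw [← Matrix.toLin'_apply, Matrix.toLin'_toMatrix']
  rfl

theorem S4T_M_mem (F : Type) [Field F] [CharP F 2] (g : SG F) :
    S4T_M F ((g : (Fin 4 → F) ≃ₗ[F] (Fin 4 → F)) : (Fin 4 → F) →ₗ[F] (Fin 4 → F)) ∈ Matrix.symplecticGroup (Fin 2) F := by
  rw [SymplecticGroup.mem_iff']
  apply (Matrix.toBilin' (R₁ := F) (n := Fin 2 ⊕ Fin 2)).injective
  rw [← Matrix.toBilin'_comp]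
  refine LinearMap.ext fun u => LinearMap.ext fun w => ?_
  rw [LinearMap.BilinForm.comp_apply, Matrix.toLin'_apply, Matrix.toLin'_apply, S4T_M_apply, S4T_M_apply]
  change BJ 2 F _ _ = BJ 2 F u w
  rw [S4T_B]
  have h1 : B ((g : (Fin 4 → F) ≃ₗ[F] (Fin 4 → F)) ((S4T_L F).symm u)) ((g : (Fin 4 → F) ≃ₗ[F] (Fin 4 → F)) ((S4T_L F).symm w)) =
      B ((S4T_L F).symm u) ((S4T_L F).symm w) := g.2 _ _
  calc _ = B ((S4T_L F).symm u) ((S4T_L F).symm w) := h1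
    _ = BJ 2 F (S4T_L F ((S4T_L F).symm u)) w := (S4T_B' F _ _).symm
    _ = BJ 2 F u w := by rw [LinearEquiv.apply_symm_apply]

/-- the homomorphism -/
noncomputable def S4T_phi (F : Type) [Field F] [CharP F 2] : SG F →* Matrix.symplecticGroup (Fin 2) F where
  toFun g := ⟨S4T_M F ((g : (Fin 4 → F) ≃ₗ[F] (Fin 4 → F)) : (Fin 4 → F) →ₗ[F] (Fin 4 → F)), S4T_M_mem F g⟩
  map_one' := by
    apply Subtype.ext
    apply Matrix.toLin'.injective
    refine LinearMap.ext fun w => ?_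
    rw [Matrix.toLin'_apply, Matrix.toLin'_apply, S4T_M_apply]
    change S4T_L F ((S4T_L F).symm w) = (1 : Matrix (Fin 2 ⊕ Fin 2) (Fin 2 ⊕ Fin 2) F).mulVec w
    rw [LinearEquiv.apply_symm_apply, Matrix.one_mulVec]
  map_mul' a b := by
    apply Subtype.ext
    apply Matrix.toLin'.injective
    refine LinearMap.ext fun w => ?_
    rw [Matrix.toLin'_apply, Matrix.toLin'_apply, S4T_M_apply]
    change _ = ((S4T_M F ((a : (Fin 4 → F) ≃ₗ[F] (Fin 4 → F)) : (Fin 4 → F) →ₗ[F] (Fin 4 → F))) *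
      (S4T_M F ((b : (Fin 4 → F) ≃ₗ[F] (Fin 4 → F)) : (Fin 4 → F) →ₗ[F] (Fin 4 → F)))).mulVec w
    rw [← Matrix.mulVec_mulVec, S4T_M_apply, S4T_M_apply, LinearEquiv.symm_apply_apply]
    rfl

theorem S4T_phi_apply (F : Type) [Field F] [CharP F 2] (g : SG F) (w : Fin 2 ⊕ Fin 2 → F) :
    ((S4T_phi F g : Matrix.symplecticGroup (Fin 2) F) : Matrix (Fin 2 ⊕ Fin 2) (Fin 2 ⊕ Fin 2) F).mulVec w =
      S4T_L F ((g : (Fin 4 → F) ≃ₗ[F] (Fin 4 → F)) ((S4T_L F).symm w)) := S4T_M_apply F _ w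

theorem S4T_inj (F : Type) [Field F] [CharP F 2] : Function.Injective (S4T_phi F) := by
  intro a b h
  apply Subtype.ext
  refine LinearEquiv.ext fun w => ?_
  have h1 := S4T_phi_apply F a (S4T_L F w)
  have h2 := S4T_phi_apply F b (S4T_L F w)
  rw [h] at h1
  rw [h1, LinearEquiv.symm_apply_apply] at h2
  exact (S4T_L F).injective h2

theorem S4T_surj (F : Type) [Field F] [CharP F 2] : Function.Surjective (S4T_phi F) := by
  intro A
  have hAA : (A : Matrix (Fin 2 ⊕ Fin 2) (Fin 2 ⊕ Fin 2) F) *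
      ((A⁻¹ : Matrix.symplecticGroup (Fin 2) F) : Matrix (Fin 2 ⊕ Fin 2) (Fin 2 ⊕ Fin 2) F) = 1 := by
    have := congrArg Subtype.val (mul_inv_cancel A)
    exact this
  have hAA' : ((A⁻¹ : Matrix.symplecticGroup (Fin 2) F) : Matrix (Fin 2 ⊕ Fin 2) (Fin 2 ⊕ Fin 2) F) *
      (A : Matrix (Fin 2 ⊕ Fin 2) (Fin 2 ⊕ Fin 2) F) = 1 := by
    have := congrArg Subtype.val (inv_mul_cancel A)
    exact this
  obtain ⟨f, hf⟩ : ∃ f : (Fin 2 ⊕ Fin 2 → F) ≃ₗ[F] (Fin 2 ⊕ Fin 2 → F),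
      ∀ w, f w = (A : Matrix (Fin 2 ⊕ Fin 2) (Fin 2 ⊕ Fin 2) F).mulVec w :=
    ⟨LinearEquiv.ofLinear (Matrix.toLin' (A : Matrix (Fin 2 ⊕ Fin 2) (Fin 2 ⊕ Fin 2) F))
      (Matrix.toLin' ((A⁻¹ : Matrix.symplecticGroup (Fin 2) F) : Matrix (Fin 2 ⊕ Fin 2) (Fin 2 ⊕ Fin 2) F))
      (by rw [← Matrix.toLin'_mul, hAA, Matrix.toLin'_one])
      (by rw [← Matrix.toLin'_mul, hAA', Matrix.toLin'_one]), fun w => rfl⟩
  obtain ⟨g, hg⟩ : ∃ g : (Fin 4 → F) ≃ₗ[F] (Fin 4 → F), ∀ w, g w = (S4T_L F).symm (f (S4T_L F w)) :=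
    ⟨(S4T_L F).trans (f.trans (S4T_L F).symm), fun w => rfl⟩
  have hgS : g ∈ Sp F := by
    intro u w
    have h1 : BJ 2 F (f (S4T_L F u)) (f (S4T_L F w)) = BJ 2 F (S4T_L F u) (S4T_L F w) := by
      have h2 := SymplecticGroup.mem_iff'.1 A.2
      rw [hf, hf, ← Matrix.toLin'_apply, ← Matrix.toLin'_apply]
      have h3 := congrArg (fun M => Matrix.toBilin' M (S4T_L F u) (S4T_L F w)) h2
      rw [← Matrix.toBilin'_comp, LinearMap.BilinForm.comp_apply] at h3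
      exact h3
    rw [← S4T_B F (g u), ← S4T_B F u, hg, hg, LinearEquiv.apply_symm_apply, LinearEquiv.apply_symm_apply]
    exact h1
  refine ⟨⟨g, hgS⟩, ?_⟩
  apply Subtype.ext
  apply Matrix.toLin'.injective
  refine LinearMap.ext fun w => ?_
  rw [Matrix.toLin'_apply, Matrix.toLin'_apply, S4T_phi_apply]
  change S4T_L F (g ((S4T_L F).symm w)) = _
  rw [hg, LinearEquiv.apply_symm_apply, LinearEquiv.apply_symm_apply, hf]

theorem S4T (hS4B : S4B_stmt) : S4T_stmt := by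
  intro F _ _
  have hZ := (hS4B F).2.2.2.2.2.2.2.2.2.2.1
  have hinj := S4T_inj F
  have hsurj := S4T_surj F
  have hcen : ∀ c : Matrix.symplecticGroup (Fin 2) F, c ∈ Subgroup.center (Matrix.symplecticGroup (Fin 2) F) → c = 1 := by
    intro c hc
    obtain ⟨a, rfl⟩ := hsurj c
    have h1 : a = 1 := by
      apply hZ
      intro g
      apply hinj
      rw [map_mul, map_mul]
      exact (Subgroup.mem_center_iff.1 hc (S4T_phi F g)).symm
    rw [h1, map_one]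
  have hmk : ∀ c c' : Matrix.symplecticGroup (Fin 2) F, (QuotientGroup.mk c : PSp 2 F) = QuotientGroup.mk c' → c = c' := by
    intro c c' h
    have h1 := hcen _ (QuotientGroup.eq.1 h)
    exact (inv_mul_eq_one.1 h1)
  have hbij : Function.Bijective ((QuotientGroup.mk' (Subgroup.center (Matrix.symplecticGroup (Fin 2) F))).comp (S4T_phi F)) := by
    constructor
    · intro a b h
      exact hinj (hmk _ _ h)
    · intro c
      obtain ⟨c', rfl⟩ := QuotientGroup.mk_surjective c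
      obtain ⟨a, rfl⟩ := hsurj c'
      exact ⟨a, rfl⟩
  refine ⟨MulEquiv.ofBijective _ hbij, fun t => ⟨?_, ?_⟩⟩
  · rintro ⟨v, hv, ht⟩
    refine ⟨S4T_phi F t, S4T_L F v, fun h => hv ((S4T_L F).map_eq_zero_iff.1 h), rfl, fun w => ?_⟩
    rw [S4T_phi_apply, ht, map_add, map_smul, LinearEquiv.apply_symm_apply, S4T_B']
  · rintro ⟨g, v, hv, ht, hg⟩
    have h1 : S4T_phi F t = g := hmk _ _ ht
    refine ⟨(S4T_L F).symm v, fun h => hv ((S4T_L F).symm.map_eq_zero_iff.1 h), fun w => ?_⟩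
    have h2 := S4T_phi_apply F t (S4T_L F w)
    rw [h1, hg, LinearEquiv.symm_apply_apply] at h2
    apply (S4T_L F).injective
    rw [← h2, map_add, map_smul, LinearEquiv.apply_symm_apply, ← S4T_B, LinearEquiv.apply_symm_apply]

end Pool.Agent.SP4
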